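import Pool.Agent.Lib.MP_51ebc3_al.Final

set_option autoImplicit false

open IsLocalRing

namespace Pool.Agent.Results.MP_51ebc3_al.NotInjective

open Pool.Agent.Lib.MP_51ebc3_al Pool.Agent.Lib.MP_51ebc3_al.H

/-- For every prime `p` there is a one-dimensional complete Noetherian local ring `A`, finite and
free as a module over the `p`-adic integers, and a non-trivial element of `K₂(A)` whose image in
`K₂(A / 𝔪 ^ r)` is trivial for every `r` and whose image in `K₂(Frac A)` is trivial. -/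
theorem result (p : ℕ) [hp : Fact p.Prime] :
    ∃ (A : Type) (_ : CommRing A) (_ : IsLocalRing A) (_ : Algebra ℤ_[p] A),
      IsNoetherianRing A ∧ ringKrullDim A = 1 ∧ IsAdicComplete (maximalIdeal A) A ∧
        Module.Finite ℤ_[p] A ∧ Module.Free ℤ_[p] A ∧
        ∃ g : St A, g ∈ K2 A ∧ g ≠ 1 ∧
          (∀ r : ℕ, Dies (Ideal.Quotient.mk (maximalIdeal A ^ r)) g) ∧ Dies (toFrac A) g := by
  obtain ⟨d, m, hd⟩ := exists_derivation_padic p
  refine ⟨H ℤ_[p] ((p : ℤ_[p]) ^ 3 * m), inferInstance, inferInstance, inferInstance,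
    inferInstance, ?_, inferInstance, inferInstance, inferInstance, XX m, XX_mem_K2 m,
    XX_padic_ne_one p d m hd, ?_, ?_⟩
  · rw [H.ringKrullDim_eq]
    exact IsDiscreteValuationRing.ringKrullDim_eq_one _
  · intro r
    refine map_XX_eq_one_of_nat m (m.appr r) _ ?_
    rw [Ideal.Quotient.eq_zero_iff_mem]
    refine H.algebraMap_mem_pow r _ ?_
    rw [PadicInt.maximalIdeal_eq_span_p, Ideal.span_singleton_pow]
    exact PadicInt.appr_spec r m
  · refine map_XX_eq_one_of_isUnit m (p ^ 3) (by push_cast; ring) _ ?_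
    have h := isUnit_toFrac (l := (p : ℤ_[p]) ^ 3 * m) ((p : ℤ_[p]) ^ 3)
      (pow_ne_zero 3 (Nat.cast_ne_zero.mpr hp.out.ne_zero))
    have e : algebraMap ℤ_[p] (H ℤ_[p] ((p : ℤ_[p]) ^ 3 * m)) ((p : ℤ_[p]) ^ 3) =
        ((p ^ 3 : ℕ) : H ℤ_[p] ((p : ℤ_[p]) ^ 3 * m)) := by
      rw [map_pow, map_natCast, Nat.cast_pow]
    rw [e, map_natCast] at h
    exact h

end Pool.Agent.Results.MP_51ebc3_al.NotInjective
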